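import Pool.Agent.Helper47.CX.Stmt

/-!
# MP_f22a19_gt: two remarks on the statement

* a closed affine manifold in the sense of `IsClosedAffine` is a smooth (even analytic) manifold;
* the simplicial volume does not depend on the choice of the fundamental class.
-/

set_option autoImplicit false

namespace Pool.CX

open Pool.SV Pool.Agent.Helper43.CX
open scoped Manifold ContDiff

/-- The transition maps of a closed affine manifold are smooth (even analytic). -/
theorem IsClosedAffine.isManifold {n : ℕ} {M : Type*} [TopologicalSpace M]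
    [ChartedSpace (Fin n → ℝ) M] (h : IsClosedAffine n M) (k : WithTop ℕ∞) :
    IsManifold 𝓘(ℝ, Fin n → ℝ) k M := by
  refine isManifold_of_contDiffOn 𝓘(ℝ, Fin n → ℝ) k M ?_
  intro e e' he he'
  obtain ⟨A, hA⟩ := h.affine e he e' he'
  have hc : ContDiff ℝ k (fun x : Fin n → ℝ => A x) := by
    have := (ContinuousAffineMap.contDiff (n := k) (𝕜 := ℝ)
      (⟨A.toAffineMap, A.toAffineMap.continuous_of_finiteDimensional⟩ :
        (Fin n → ℝ) →ᴬ[ℝ] (Fin n → ℝ)))
    exact this
  refine hc.contDiffOn.congr ?_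
  intro x hx
  simp only [modelWithCornersSelf_coe, modelWithCornersSelf_coe_symm, Function.comp_apply,
    Set.preimage_id, id_eq, Set.range_id, Set.inter_univ] at hx ⊢
  have hx1 : x ∈ e.target := by
    have := hx
    simp only [OpenPartialHomeomorph.trans_source, OpenPartialHomeomorph.symm_source,
      Set.mem_inter_iff, Set.mem_preimage] at this
    exact this.1
  have hx2 : e.symm x ∈ e'.source := by
    have := hx
    simp only [OpenPartialHomeomorph.trans_source, OpenPartialHomeomorph.symm_source,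
      Set.mem_inter_iff, Set.mem_preimage] at this
    exact this.2
  have := hA (e.symm x) ⟨e.map_target hx1, hx2⟩
  rw [e.right_inv hx1] at this
  simpa using this

/-- Two fundamental classes agree up to sign. -/
theorem fund_eq_or_neg {M : Type*} [TopologicalSpace M] {n : ℕ} {z z' : ChainC ℤ M (n + 1)}
    (hz : IsFund z) (hz' : IsFund z') :
    (∃ b, z' - z = bdC ℤ M (n + 1) b) ∨ ∃ b, z' + z = bdC ℤ M (n + 1) b := by
  obtain ⟨m, ⟨b, hb⟩, -⟩ := hz.2 z' hz'.1
  obtain ⟨m', ⟨b', hb'⟩, -⟩ := hz'.2 z hz.1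
  have h1 : m' * m = 1 := by
    refine (hz.2 z hz.1).unique ⟨b' + m' • b, ?_⟩ ⟨0, by simp⟩
    rw [map_add, map_smul, ← hb, ← hb', smul_sub, smul_smul]
    abel
  rcases Int.isUnit_iff.1 (IsUnit.of_mul_eq_one m' (by rw [mul_comm]; exact h1) : IsUnit m)
    with h | h
  · left
    exact ⟨b, by rw [← hb, h, one_smul]⟩
  · right
    exact ⟨b, by rw [← hb, h, neg_smul, one_smul, sub_neg_eq_add]⟩

/-- The simplicial volume does not depend on the choice of the fundamental class. -/
theorem simplicialVolume_eq {M : Type*} [TopologicalSpace M] {n : ℕ}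
    {z z' : ChainC ℤ M (n + 1)} (hz : IsFund z) (hz' : IsFund z') :
    simplicialVolume z = simplicialVolume z' := by
  unfold simplicialVolume
  congr 1
  rcases fund_eq_or_neg hz hz' with ⟨b, hb⟩ | ⟨b, hb⟩
  · have h1 : toReal z' - toReal z = bd M (n + 1) (toReal b) := by
      rw [← toReal_bd, ← hb, sub_eq_add_neg z' z, toReal_add, toReal_neg, ← sub_eq_add_neg]
    ext r
    constructor
    · rintro ⟨y, hy, ⟨c, hc⟩, hr⟩
      exact ⟨y, hy, ⟨c - toReal b, by rw [map_sub, ← hc, ← h1]; abel⟩, hr⟩
    · rintro ⟨y, hy, ⟨c, hc⟩, hr⟩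
      exact ⟨y, hy, ⟨c + toReal b, by rw [map_add, ← hc, ← h1]; abel⟩, hr⟩
  · have h1 : toReal z' + toReal z = bd M (n + 1) (toReal b) := by
      rw [← toReal_bd, ← hb, toReal_add]
    ext r
    constructor
    · rintro ⟨y, hy, ⟨c, hc⟩, hr⟩
      exact ⟨-y, by rw [map_neg, hy, neg_zero], ⟨-c - toReal b, by
        rw [map_sub, map_neg, ← hc, ← h1]; abel⟩, by rw [hr, nrm_neg]⟩
    · rintro ⟨y, hy, ⟨c, hc⟩, hr⟩
      exact ⟨-y, by rw [map_neg, hy, neg_zero], ⟨-c - toReal b, by
        rw [map_sub, map_neg, ← hc, ← h1]; abel⟩, by rw [hr, nrm_neg]⟩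

/-- A manifold with positive simplicial volume in the sense of `HasPositiveVolume`: there is a
positive number which is the simplicial volume computed with any fundamental class. -/
theorem HasPositiveVolume.exists_eq {n : ℕ} {M : Type*} [TopologicalSpace M]
    (h : HasPositiveVolume n M) :
    ∃ v : ℝ, 0 < v ∧ (∃ z : ChainC ℤ M (n + 1), IsFund z) ∧
      ∀ z : ChainC ℤ M (n + 1), IsFund z → simplicialVolume z = v := by
  obtain ⟨⟨z, hz⟩, h2⟩ := h
  exact ⟨simplicialVolume z, h2 z hz, ⟨z, hz⟩, fun z' hz' => simplicialVolume_eq hz' hz⟩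

end Pool.CX
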