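import Pool.Agent.Helper82.CX.Wrap

/-!
# MP_f22a19_gt: a closed affine 3-manifold with positive simplicial volume

Template of the results file (copy it, change the namespace, replace the hypothesis `h` by its proof).
All definitions used in the statement are in this file.
-/

set_option autoImplicit false

namespace Pool.Agent.Helper82.CX.ResultTemplate

open scoped Manifold ContDiff

/-- Singular `k`-simplices of `X`: continuous maps from the standard `k`-simplex to `X`. -/
abbrev Simplex (X : Type*) [TopologicalSpace X] (k : ℕ) : Type _ :=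
  C(stdSimplex ℝ (Fin (k + 1)), X)

/-- Singular `k`-chains of `X` with coefficients in the ring `R`. -/
abbrev Chain (R : Type*) [CommRing R] (X : Type*) [TopologicalSpace X] (k : ℕ) : Type _ :=
  Simplex X k →₀ R

/-- The inclusion of the face of the standard `(k+1)`-simplex opposite to the vertex `i`. -/
noncomputable def face (k : ℕ) (i : Fin (k + 2)) :
    C(stdSimplex ℝ (Fin (k + 1)), stdSimplex ℝ (Fin (k + 2))) :=
  ⟨stdSimplex.map i.succAbove, stdSimplex.continuous_map _⟩

/-- The boundary `C_(k+1)(X; R) → C_k(X; R)`: the alternating sum of the faces. -/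
noncomputable def boundary (R : Type*) [CommRing R] (X : Type*) [TopologicalSpace X] (k : ℕ) :
    Chain R X (k + 1) →ₗ[R] Chain R X k :=
  Finsupp.linearCombination R (fun σ : Simplex X (k + 1) =>
    ∑ i : Fin (k + 2), (-1 : R) ^ (i : ℕ) • Finsupp.single (σ.comp (face k i)) (1 : R))

/-- The `ℓ¹`-norm of a real chain: the sum of the absolute values of its coefficients. -/
noncomputable def l1norm {X : Type*} [TopologicalSpace X] {k : ℕ} (c : Chain ℝ X k) : ℝ :=
  ∑ σ ∈ c.support, |c σ|

/-- An integral chain regarded as a real chain. -/
noncomputable def toReal {X : Type*} [TopologicalSpace X] {k : ℕ} (z : Chain ℤ X k) :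
    Chain ℝ X k :=
  z.mapRange (fun m : ℤ => (m : ℝ)) Int.cast_zero

/-- `z` is an integral cycle of degree `n + 1` whose class is a generator of the integral
homology group `H_(n+1)(X; ℤ)`, and this group is infinite cyclic: every integral cycle `w` of
degree `n + 1` is homologous to `m • z` for exactly one integer `m`. For a closed connected
manifold `X` of dimension `n + 1` there is such a `z` if and only if `X` is orientable, and the
`z` are then the integral cycles which represent a fundamental class of `X`. -/
def IsFundamentalCycle {X : Type*} [TopologicalSpace X] {n : ℕ} (z : Chain ℤ X (n + 1)) :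
    Prop :=
  boundary ℤ X n z = 0 ∧ ∀ w : Chain ℤ X (n + 1), boundary ℤ X n w = 0 →
    ∃! m : ℤ, ∃ b : Chain ℤ X (n + 2), w - m • z = boundary ℤ X (n + 1) b

/-- The infimum of the `ℓ¹`-norms of the real singular cycles homologous to `z`. For an integral
cycle `z` which represents the fundamental class this is the simplicial volume of `X`. -/
noncomputable def simplicialVolume {X : Type*} [TopologicalSpace X] {n : ℕ}
    (z : Chain ℤ X (n + 1)) : ℝ :=
  sInf {r : ℝ | ∃ y : Chain ℝ X (n + 1), boundary ℝ X n y = 0 ∧
    (∃ b : Chain ℝ X (n + 2), y - toReal z = boundary ℝ X (n + 1) b) ∧ r = l1norm y}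

/-- `M`, with its atlas (the domains of the charts cover `M`), is a closed connected affine
manifold of dimension `n`: it is compact, Hausdorff, second countable and connected, and every
transition map is the restriction of an affine automorphism of `ℝⁿ`. -/
structure IsClosedAffine (n : ℕ) (M : Type*) [TopologicalSpace M] [ChartedSpace (Fin n → ℝ) M] :
    Prop where
  compact : CompactSpace M
  hausdorff : T2Space M
  secondCountable : SecondCountableTopology M
  connected : ConnectedSpace M
  affine : ∀ e ∈ atlas (Fin n → ℝ) M, ∀ e' ∈ atlas (Fin n → ℝ) M,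
    ∃ A : (Fin n → ℝ) ≃ᵃ[ℝ] (Fin n → ℝ), ∀ x ∈ e.source ∩ e'.source, e' x = A (e x)

/-- There is a closed connected orientable smooth affine 3-manifold with positive simplicial
volume. -/
theorem result_of (h : Pool.CX.Counterexample) :
    ∃ (M : Type) (_ : TopologicalSpace M) (_ : ChartedSpace (Fin 3 → ℝ) M),
      IsClosedAffine 3 M ∧ IsManifold 𝓘(ℝ, Fin 3 → ℝ) ∞ M ∧
        ∃ v : ℝ, 0 < v ∧ (∃ z : Chain ℤ M 3, IsFundamentalCycle z) ∧
          ∀ z : Chain ℤ M 3, IsFundamentalCycle z → simplicialVolume z = v := by
  obtain ⟨M, tM, cM, h1, h2, v, h3, h4, h5⟩ := Pool.CX.final_of h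
  exact ⟨M, tM, cM, ⟨h1.compact, h1.t2, h1.second, h1.conn, h1.affine⟩, h2, v, h3, h4, h5⟩

end Pool.Agent.Helper82.CX.ResultTemplate
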