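import Pool.Agent.Helper82.CX.Extra

/-!
# MP_f22a19_gt: the final form of the statement
-/

set_option autoImplicit false

namespace Pool.CX

open Pool.SV Pool.Agent.Helper43.CX
open scoped Manifold ContDiff

/-- The final form: there are a closed affine 3-manifold `M`, with smooth charts, and a number
`v > 0` which is its simplicial volume. -/
theorem final_of (h : Counterexample) :
    ∃ (M : Type) (_ : TopologicalSpace M) (_ : ChartedSpace (Fin 3 → ℝ) M),
      IsClosedAffine 3 M ∧ IsManifold 𝓘(ℝ, Fin 3 → ℝ) ∞ M ∧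
        ∃ v : ℝ, 0 < v ∧ (∃ z : ChainC ℤ M 3, IsFund z) ∧
          ∀ z : ChainC ℤ M 3, IsFund z → simplicialVolume z = v := by
  obtain ⟨M, tM, cM, h1, h2⟩ := h
  exact ⟨M, tM, cM, h1, h1.isManifold ∞, h2.exists_eq⟩

end Pool.CX
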